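import Mathlib

set_option autoImplicit false
open MeasureTheory Filter Set Topology ProbabilityTheory
open scoped ENNReal

namespace Pool.Agent.Results.MP_5351bf_an.Yes

/-- An automorphism of a standard probability space. -/
structure Sys where
  X : Type
  [m : MeasurableSpace X]
  [sb : StandardBorelSpace X]
  μ : Measure X
  [pr : IsProbabilityMeasure μ]
  T : X ≃ᵐ X
  inv : MeasurePreserving T μ μ

attribute [instance] Sys.m Sys.sb Sys.pr

/-- `π` is a factor map from `W` onto `Z`. -/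
def Fac (W Z : Sys) (π : W.X → Z.X) : Prop :=
  MeasurePreserving π W.μ Z.μ ∧ ∀ᵐ w ∂W.μ, π (W.T w) = Z.T (π w)

/-- The identity map of `(Y, ν)`. -/
def idSys (Y : Type) [MeasurableSpace Y] [StandardBorelSpace Y] (ν : Measure Y)
    [IsProbabilityMeasure ν] : Sys := ⟨Y, ν, .refl Y, .id ν⟩

/-- `T × Id`. -/
noncomputable def prodId (W : Sys) (Y : Type) [MeasurableSpace Y] [StandardBorelSpace Y]
    (ν : Measure Y) [IsProbabilityMeasure ν] : Sys :=
  ⟨W.X × Y, W.μ.prod ν, W.T.prodCongr (.refl Y), W.inv.prod (.id ν)⟩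

/-- Characteristic class containing the identity maps. -/
def IsChar (F : Sys → Prop) : Prop :=
  (∀ W Z π, Fac W Z π → F W → F Z) ∧
  (∀ (S : ℕ → Sys) (ρ : Measure (∀ n, (S n).X)) [IsProbabilityMeasure ρ]
    (h : MeasurePreserving (MeasurableEquiv.piCongrRight fun n => (S n).T) ρ ρ),
    (∀ n, ρ.map (fun z => z n) = (S n).μ) → (∀ n, F (S n)) → F ⟨∀ n, (S n).X, ρ, _, h⟩) ∧
  ∀ (Y : Type) [MeasurableSpace Y] [StandardBorelSpace Y] (ν : Measure Y) [IsProbabilityMeasure ν],
    F (idSys Y ν)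

/-- `A` modulo null sets. -/
abbrev md (W : Sys) (A : MeasurableSpace W.X) : MeasurableSpace W.X :=
  eventuallyMeasurableSpace A (ae W.μ)

/-- `A` is, modulo null sets, the sub-σ-algebra of a factor lying in `F`. -/
def IsFac (F : Sys → Prop) (W : Sys) (A : MeasurableSpace W.X) : Prop :=
  A ≤ W.m ∧ ∃ Z π, F Z ∧ Fac W Z π ∧ md W A = md W (Z.m.comap π)

/-- `A` is the largest such σ-algebra modulo null sets. -/
def IsLargest (F : Sys → Prop) (W : Sys) (A : MeasurableSpace W.X) : Prop :=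
  IsFac F W A ∧ ∀ A', IsFac F W A' → A' ≤ md W A

lemma md_le {W : Sys} {A B : MeasurableSpace W.X} (h : A ≤ md W B) : md W A ≤ md W B :=
  fun _ ⟨t, ht, e⟩ => let ⟨u, hu, e'⟩ := h t ht; ⟨u, hu, e.trans e'⟩

lemma gen {F : Sys → Prop} (hF : IsChar F) {W : Sys} (S : ℕ → Sys) (π : ∀ n, W.X → (S n).X)
    (hπ : ∀ n, Fac W (S n) (π n)) (hS : ∀ n, F (S n)) :
    ∃ (J : Sys) (P : W.X → J.X) (e : J.X ≃ᵐ ∀ n, (S n).X), F J ∧ Fac W J P ∧
      ∀ w n, e (P w) n = π n w := by
  have mP : Measurable fun w n => π n w := measurable_pi_lambda _ fun n => (hπ n).1.measurable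
  have := Measure.isProbabilityMeasure_map (μ := W.μ) mP.aemeasurable
  have a : ∀ᵐ w ∂W.μ, (fun n => π n (W.T w)) =
      MeasurableEquiv.piCongrRight (fun n => (S n).T) fun n => π n w := by
    filter_upwards [ae_all_iff.2 fun n => (hπ n).2] with w hw using funext hw
  have h : MeasurePreserving (MeasurableEquiv.piCongrRight fun n => (S n).T)
      (W.μ.map fun w n => π n w) (W.μ.map fun w n => π n w) := by
    refine ⟨MeasurableEquiv.measurable _, ?_⟩
    rw [Measure.map_map (MeasurableEquiv.measurable _) mP]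
    conv_rhs => rw [← W.inv.map_eq, Measure.map_map mP W.T.measurable]
    exact Measure.map_congr (EventuallyEq.symm a)
  refine ⟨_, fun w n => π n w, .refl _, hF.2.1 S _ h (fun n => ?_) hS, ⟨⟨mP, rfl⟩, a⟩,
    fun _ _ => rfl⟩
  rw [Measure.map_map (measurable_pi_apply n) mP]; exact (hπ n).1.map_eq

lemma Fac.thru {W J V : Sys} {P : W.X → J.X} {φ : W.X → V.X} {ψ : J.X → V.X} (hP : Fac W J P)
    (hφ : Fac W V φ) (hψ : Measurable ψ) (e : ∀ᵐ w ∂W.μ, φ w = ψ (P w)) : Fac J V ψ := by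
  refine ⟨⟨hψ, ?_⟩, ?_⟩
  · rw [← hP.1.map_eq, Measure.map_map hψ hP.1.measurable, ← hφ.1.map_eq]
    exact Measure.map_congr (EventuallyEq.symm e)
  · rw [← hP.1.map_eq]
    refine (ae_map_iff hP.1.aemeasurable (measurableSet_eq_fun
      (hψ.comp J.T.measurable) (V.T.measurable.comp hψ))).2 ?_
    filter_upwards [e, W.inv.quasiMeasurePreserving.ae e, hP.2, hφ.2] with w a b c d
    simp only [Function.comp]
    rw [← c, ← b, d, a]

lemma Fac.comp {W J V : Sys} {P : W.X → J.X} {ψ : J.X → V.X} (hP : Fac W J P)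
    (hψ : Fac J V ψ) : Fac W V (ψ ∘ P) := by
  refine ⟨hψ.1.comp hP.1, ?_⟩
  filter_upwards [hP.2, hP.1.quasiMeasurePreserving.ae hψ.2] with w a b
  simp only [Function.comp]; rw [a, b]

def it (W : Sys) (k : ℤ) : W.X → W.X := (W.T.toEquiv ^ k : Equiv.Perm W.X)

lemma it_succ (W : Sys) (k : ℤ) (w : W.X) : it W (k + 1) w = it W k (W.T w) := by
  simp [it, zpow_add_one]

lemma it_pred (W : Sys) (k : ℤ) (w : W.X) : it W (k - 1) w = it W k (W.T.symm w) := by
  rw [← sub_add_cancel k 1, it_succ]; simp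

lemma it_mp (W : Sys) (k : ℤ) : MeasurePreserving (it W k) W.μ W.μ := by
  induction k using Int.induction_on with
  | zero => exact .id _
  | succ k ih => rw [funext (it_succ W k)]; exact ih.comp W.inv
  | pred k ih => rw [funext (it_pred W _)]; exact ih.comp (W.inv.symm _)

lemma Fac.it {W J : Sys} {P : W.X → J.X} (h : Fac W J P) (k : ℤ) :
    ∀ᵐ w ∂W.μ, P (it W k w) = it J k (P w) := by
  induction k using Int.induction_on with
  | zero => exact .of_forall fun _ => rfl
  | succ k ih =>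
    filter_upwards [W.inv.quasiMeasurePreserving.ae ih, h.2] with w a b
    rw [it_succ, it_succ, a, b]
  | pred k ih =>
    filter_upwards [(W.inv.symm _).quasiMeasurePreserving.ae ih,
      (W.inv.symm _).quasiMeasurePreserving.ae h.2] with w a b
    rw [it_pred, it_pred, a, ← W.T.apply_symm_apply w, b]; simp

lemma orb (W : Sys) {f : W.X → ℝ} (hf : Measurable f) : ∃ (V : Sys) (e : (ℤ → ℝ) ≃ᵐ V.X),
    Fac W V fun w => e fun k => f (it W k w) := by
  have m : Measurable fun w k => f (it W k w) :=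
    measurable_pi_lambda _ fun k => hf.comp (it_mp W k).measurable
  have := Measure.isProbabilityMeasure_map (μ := W.μ) m.aemeasurable
  let σ : (ℤ → ℝ) ≃ᵐ (ℤ → ℝ) := (MeasurableEquiv.piCongrLeft (fun _ => ℝ) (Equiv.addRight 1)).symm
  have a : ∀ w, (fun k => f (it W k (W.T w))) = σ fun k => f (it W k w) := fun w =>
    funext fun k => by rw [← it_succ]; rfl
  refine ⟨⟨ℤ → ℝ, W.μ.map fun w k => f (it W k w), σ, σ.measurable, ?_⟩, .refl _, ⟨m, rfl⟩,
    .of_forall a⟩
  rw [Measure.map_map σ.measurable m]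
  conv_rhs => rw [← W.inv.map_eq, Measure.map_map m W.T.measurable]
  exact congrArg (W.μ.map ·) (funext fun w => (a w).symm)

variable {Y : Type} [MeasurableSpace Y] [StandardBorelSpace Y] {ν : Measure Y}
  [IsProbabilityMeasure ν]

lemma f_fst (W : Sys) : Fac (prodId W Y ν) W Prod.fst :=
  ⟨measurePreserving_fst (μ := W.μ) (ν := ν), .of_forall fun _ => rfl⟩

lemma f_snd (W : Sys) : Fac (prodId W Y ν) (idSys Y ν) Prod.snd :=
  ⟨measurePreserving_snd (μ := W.μ) (ν := ν), .of_forall fun _ => rfl⟩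

lemma f_map {W Z : Sys} {p : W.X → Z.X} (hp : Fac W Z p) :
    Fac (prodId W Y ν) (prodId Z Y ν) (Prod.map p id) := by
  refine ⟨hp.1.prod (.id ν), ?_⟩
  filter_upwards [(f_fst (ν := ν) W).1.quasiMeasurePreserving.ae hp.2] with w hw
  exact Prod.ext hw rfl

lemma lln {F : Sys → Prop} (hF : IsChar F) {W Z : Sys} {π : W.X × Y → Z.X} (hZ : F Z) (hπ : Fac (prodId W Y ν) Z π)
    {E : Set Z.X} (hE : MeasurableSet E) {D : Set Y} (hD : MeasurableSet D) :
    ∃ V φ, F V ∧ Fac W V φ ∧
      Measurable[V.m.comap φ] fun x => ν.real (Prod.mk x ⁻¹' (π ⁻¹' E ∩ univ ×ˢ D)) := by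
  have mπ : Measurable π := hπ.1.measurable
  set U := π ⁻¹' E ∩ univ ×ˢ D with hU
  have mU : MeasurableSet U := (mπ hE).inter (.prod .univ hD)
  have mf : Measurable fun x => ν.real (Prod.mk x ⁻¹' U) :=
    (measurable_measure_prodMk_left mU).ennreal_toReal
  obtain ⟨V, e, hV⟩ := orb W mf
  let W' := prodId W (ℕ → Y) (Measure.infinitePi fun _ => ν)
  have f1 : Fac W' W Prod.fst := f_fst W
  obtain ⟨J, P, e', hJ, hP, he⟩ := gen hF (W := W')
    (fun n => Nat.casesOn n (idSys (ℕ → Y) (Measure.infinitePi fun _ => ν)) fun _ => Z)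
    (fun n => Nat.casesOn n Prod.snd fun n w => π (w.1, w.2 n))
    (fun n => Nat.casesOn n (f_snd W) fun n =>
      Fac.comp (W := W') (J := prodId W Y ν) (P := Prod.map id fun y : ℕ → Y => y n)
        ⟨(MeasurePreserving.id _).prod (measurePreserving_eval_infinitePi _ n),
          .of_forall fun _ => rfl⟩ hπ)
    (fun n => Nat.casesOn n (hF.2.2 _ _) fun _ => hZ)
  let g : J.X → ℝ := fun z => limsup (fun N : ℕ => (∑ i ∈ Finset.range N,
    (E ×ˢ D).indicator (1 : Z.X × Y → ℝ) (e' z (i + 1), (e' z 0 : ℕ → Y) i)) / N) atTop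
  have mg : Measurable g := Measurable.limsup fun N => (Finset.measurable_sum _ fun i _ =>
    (measurable_one.indicator (hE.prod hD)).comp
      (((measurable_pi_apply (i + 1)).comp e'.measurable).prodMk ((measurable_pi_apply i).comp
        ((measurable_pi_apply 0).comp e'.measurable)))).div_const _
  have key : ∀ᵐ w ∂W'.μ, ν.real (Prod.mk w.1 ⁻¹' U) = g (P w) := by
    refine (Measure.ae_prod_iff_ae_ae (measurableSet_eq_fun (mf.comp measurable_fst)
      (mg.comp hP.1.measurable))).2 (.of_forall fun x => ?_)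
    have mx : Measurable ((Prod.mk x ⁻¹' U).indicator (1 : Y → ℝ)) :=
      measurable_one.indicator (measurable_prodMk_left mU)
    have ev := fun n => measurePreserving_eval_infinitePi (fun _ : ℕ => ν) n
    have ix : Integrable ((Prod.mk x ⁻¹' U).indicator (1 : Y → ℝ)) ν :=
      (integrable_const 1).indicator (measurable_prodMk_left mU)
    filter_upwards [strong_law_ae_real (μ := Measure.infinitePi fun _ : ℕ => ν)
      (fun n y => (Prod.mk x ⁻¹' U).indicator (1 : Y → ℝ) (y n)) ((ev 0).integrable_comp_of_integrable ix)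
      (fun i j hij => (iIndepFun_infinitePi fun _ => mx).indepFun hij)
      fun i => IdentDistrib.comp (u := (Prod.mk x ⁻¹' U).indicator (1 : Y → ℝ))
        ⟨(ev i).aemeasurable, (ev 0).aemeasurable, (ev i).map_eq.trans (ev 0).map_eq.symm⟩ mx]
      with y hy
    have c := integral_map (ev 0).aemeasurable mx.aestronglyMeasurable
    rw [(ev 0).map_eq, integral_indicator_one (measurable_prodMk_left mU)] at c
    refine (c.trans hy.limsup_eq.symm).trans (congrArg (limsup · atTop) (funext fun N =>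
      congrArg (· / (N : ℝ)) (Finset.sum_congr rfl fun i _ => ?_)))
    rw [he, he]
    change _ = (E ×ˢ D).indicator (1 : Z.X × Y → ℝ) (π (x, y i), y i)
    by_cases h : π (x, y i) ∈ E ∧ y i ∈ D
    · rw [indicator_of_mem (s := E ×ˢ D) h, indicator_of_mem (s := Prod.mk x ⁻¹' U) ⟨h.1, trivial, h.2⟩]
      rfl
    · rw [indicator_of_notMem (s := E ×ˢ D) h,
        indicator_of_notMem (s := Prod.mk x ⁻¹' U) fun a => h ⟨a.1, a.2.2⟩]
  have hV' : F V := hF.1 _ _ _ (hP.thru (f1.comp hV) (ψ := fun z => e fun k => g (it J k z))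
    (e.measurable.comp (measurable_pi_lambda _ fun k => mg.comp (it_mp J k).measurable)) (by
      filter_upwards [ae_all_iff.2 hP.it, ae_all_iff.2 f1.it,
        ae_all_iff.2 fun k => (it_mp W' k).quasiMeasurePreserving.ae key] with w a b c
      simp only [Function.comp, ← a, ← b, c])) hJ
  refine ⟨V, _, hV', hV, ?_⟩
  simpa [Function.comp_def, it] using (measurable_pi_apply 0).comp (e.symm.measurable.comp
    (comap_measurable fun w => e fun k => ν.real (Prod.mk (it W k w) ⁻¹' U)))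

lemma eqv {X : Type*} {A m : MeasurableSpace X} {μ : Measure X} [IsFiniteMeasure μ]
    {f g : X → ℝ≥0∞} (hg : Measurable g) (hf : Measurable f) (fi : ∫⁻ x, f x ∂μ ≠ ∞)
    (hU : MeasurableSet[eventuallyMeasurableSpace A (ae μ)] {x | f x < g x})
    (h : ∀ s, MeasurableSet[A] s → ∫⁻ x in s, f x ∂μ = ∫⁻ x in s, g x ∂μ) : g ≤ᵐ[μ] f := by
  obtain ⟨t, ht, e⟩ := hU
  by_contra hh
  refine (setLIntegral_strict_mono (measurableSet_lt hf hg) (by
    simpa [EventuallyLE, ae_iff] using hh) hg (ne_top_of_le_ne_top fi (setLIntegral_le_lintegral _ _))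
    (.of_forall fun _ h => h)).ne ?_
  rw [setLIntegral_congr e, setLIntegral_congr e, h t ht]

omit [StandardBorelSpace Y] in
lemma step {X Z : Type*} [MeasurableSpace X] [mZ : MeasurableSpace Z] {μ : Measure X}
    [IsProbabilityMeasure μ] {p : X → Z} (hp : Measurable p) {E : Set (X × Y)}
    (hE : MeasurableSet E) (h : ∀ D, MeasurableSet D → Measurable[eventuallyMeasurableSpace
      (mZ.comap p) (ae μ)] fun x => ν (Prod.mk x ⁻¹' (E ∩ univ ×ˢ D))) :
    ∃ E' : Set (Z × Y), MeasurableSet E' ∧ E =ᵐ[μ.prod ν] Prod.map p id ⁻¹' E' := by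
  have mq : Measurable (Prod.map p (id : Y → Y)) := hp.prodMap measurable_id
  set r := (((μ.prod ν).restrict E).map (Prod.map p id)).rnDeriv ((μ.prod ν).map (Prod.map p id))
  have mr : Measurable r := Measure.measurable_rnDeriv _ _
  have ac := ((Measure.absolutelyContinuous_restrict (μ := μ.prod ν) (s := E)).map mq)
  have i1 : ∀ s D, MeasurableSet s → MeasurableSet D → ∫⁻ w in s ×ˢ D, E.indicator 1 w ∂μ.prod ν =
      ∫⁻ x in s, ν (Prod.mk x ⁻¹' (E ∩ univ ×ˢ D)) ∂μ := fun s D hs hD => by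
    rw [lintegral_indicator_one hE, ← Measure.prod_restrict, Measure.prod_apply hE]
    exact lintegral_congr fun x => by
      rw [Measure.restrict_apply (measurable_prodMk_left hE)]; congr 1; ext y; simp
  have i2 : ∀ s D, ∫⁻ w in s ×ˢ D, r (Prod.map p id w) ∂μ.prod ν =
      ∫⁻ x in s, ∫⁻ y in D, r (p x, y) ∂ν ∂μ := fun s D => by
    rw [← Measure.prod_restrict]; exact lintegral_prod _ (mr.comp mq).aemeasurable
  have e : E.indicator 1 =ᵐ[μ.prod ν] fun w => r (Prod.map p id w) := by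
    refine ae_eq_of_setLIntegral_prod_eq (measurable_one.indicator hE).aemeasurable
      (mr.comp mq).aemeasurable (by rw [lintegral_indicator_one hE]; finiteness) fun s hs D hD => ?_
    rw [i1 s D hs hD, i2]
    have m1 := measurable_measure_prodMk_left (ν := ν) (hE.inter (.prod .univ hD))
    have m2 : Measurable fun z => ∫⁻ y in D, r (z, y) ∂ν := mr.lintegral_prod_right'
    have m3 := (m2.comp (comap_measurable p)).eventuallyMeasurable (l := ae μ)
    have i3 : ∀ s, MeasurableSet[mZ.comap p] s → ∫⁻ x in s, ν (Prod.mk x ⁻¹' (E ∩ univ ×ˢ D)) ∂μ =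
        ∫⁻ x in s, ∫⁻ y in D, r (p x, y) ∂ν ∂μ := by
      rintro _ ⟨t, ht, rfl⟩
      have := setLIntegral_map (μ := μ.prod ν) (ht.prod hD) mr mq
      rw [Measure.setLIntegral_rnDeriv ac, Measure.map_apply mq (ht.prod hD),
        preimage_prod_map_prod, preimage_id, Measure.restrict_apply ((hp ht).prod hD)] at this
      rw [← i1 _ _ (hp ht) hD, ← i2, ← this, lintegral_indicator_one hE, Measure.restrict_apply hE,
        inter_comm]
    have fi : ∫⁻ x, ν (Prod.mk x ⁻¹' (E ∩ univ ×ˢ D)) ∂μ ≠ ∞ := by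
      rw [← Measure.prod_apply (hE.inter (.prod .univ hD))]; finiteness
    refine lintegral_congr_ae (ae_restrict_of_ae (EventuallyLE.antisymm
      (eqv m1 (m2.comp hp) ?_ (measurableSet_lt m3 (h D hD)) fun s hs => (i3 s hs).symm)
      (eqv (m2.comp hp) m1 fi (measurableSet_lt (h D hD) m3) i3)))
    have := i3 univ .univ
    simp only [Measure.restrict_univ] at this
    exact this ▸ fi
  refine ⟨r ⁻¹' {1}, mr (measurableSet_singleton 1), ?_⟩
  filter_upwards [e] with w hw
  refine propext ?_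
  change w ∈ E ↔ r (Prod.map p id w) = 1
  rw [← hw]; by_cases h : w ∈ E <;> simp [h]

lemma qf (W : Sys) {s t : Set W.X} (e : s =ᵐ[W.μ] t) :
    Prod.fst ⁻¹' s =ᵐ[(prodId W Y ν).μ] (Prod.fst ⁻¹' t : Set (W.X × Y)) :=
  (f_fst W).1.quasiMeasurePreserving.preimage_ae_eq e

lemma Fac.le {W V : Sys} {φ : W.X → V.X} (h : Fac W V φ) : V.m.comap φ ≤ W.m :=
  h.1.measurable.comap_le

lemma core {F : Sys → Prop} (hF : IsChar F) {W Z Z' : Sys} {p : W.X → Z.X} (hp : Fac W Z p)
    (h : ∀ V φ, F V → Fac W V φ → V.m.comap φ ≤ md W (Z.m.comap p)) {π : W.X × Y → Z'.X}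
    (hZ' : F Z') (hπ : Fac (prodId W Y ν) Z' π) :
    Z'.m.comap π ≤ md (prodId W Y ν) ((prodId Z Y ν).m.comap (Prod.map p id)) := by
  rintro _ ⟨E, hE, rfl⟩
  obtain ⟨E', h1, h2⟩ := step (ν := ν) (μ := W.μ) hp.1.measurable (hπ.1.measurable hE) fun D hD => by
    obtain ⟨V, φ, hV, hφ, m⟩ := lln hF hZ' hπ hE hD
    have := (m.mono (h V φ hV hφ) le_rfl).ennreal_ofReal
    simp only [ofReal_measureReal (measure_ne_top ν _)] at this
    exact this
  exact ⟨_, ⟨E', h1, rfl⟩, h2⟩

lemma f_prod {F : Sys → Prop} (hF : IsChar F) {Z : Sys} (hZ : F Z) : F (prodId Z Y ν) := by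
  obtain ⟨J, P, e', hJ, hP, he⟩ := gen hF (W := prodId Z Y ν)
    (fun n => Nat.casesOn n Z fun _ => idSys Y ν) (fun n => Nat.casesOn n Prod.fst fun _ => Prod.snd)
    (fun n => Nat.casesOn n (f_fst Z) fun _ => f_snd Z)
    (fun n => Nat.casesOn n hZ fun _ => hF.2.2 _ _)
  exact hF.1 _ _ _ (hP.thru (φ := id) (ψ := fun z => (e' z 0, e' z 1)) ⟨.id _, .of_forall fun _ => rfl⟩
    (((measurable_pi_apply 0).comp e'.measurable).prodMk
      ((measurable_pi_apply 1).comp e'.measurable)) (.of_forall fun w => by rw [he, he]; rfl)) hJ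

theorem result (F : Sys → Prop) (hF : IsChar F) (W : Sys) (Y : Type) [MeasurableSpace Y]
    [StandardBorelSpace Y] (ν : Measure Y) [IsProbabilityMeasure ν] (A : MeasurableSpace W.X)
    (hA : IsLargest F W A) : IsLargest F (prodId W Y ν) (A.prod inferInstance) := by
  obtain ⟨⟨hle, Z, p, hZ, hp, e⟩, hmax⟩ := hA
  have mono : ∀ A B : MeasurableSpace W.X, md W A = md W B →
      md (prodId W Y ν) (A.prod inferInstance) ≤ md (prodId W Y ν) (B.prod inferInstance) :=
    fun A B h => md_le (sup_le (by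
      rintro _ ⟨s, hs, rfl⟩
      obtain ⟨t, ht, e⟩ := (le_eventuallyMeasurableSpace.trans h.le) s hs
      exact ⟨_, @measurable_fst _ _ B _ t ht, qf W e⟩)
      (le_sup_right.trans le_eventuallyMeasurableSpace))
  have e2 : md (prodId W Y ν) (A.prod inferInstance) =
      md (prodId W Y ν) ((prodId Z Y ν).m.comap (Prod.map p id)) := by
    rw [(mono _ _ e).antisymm (mono _ _ e.symm)]
    congr 1
    refine (MeasurableSpace.comap_sup.trans ?_).symm
    simp only [MeasurableSpace.comap_comp, MeasurableSpace.prod]; rfl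
  refine ⟨⟨sup_le_sup (MeasurableSpace.comap_mono hle) le_rfl, prodId Z Y ν, Prod.map p id,
    f_prod hF hZ, f_map hp, e2⟩, fun A' ⟨_, Z', π, hZ', hπ, e'⟩ => ?_⟩
  rw [e2]
  exact le_eventuallyMeasurableSpace.trans (e'.le.trans (md_le (core hF hp (fun V φ hV hφ =>
    (hmax _ ⟨hφ.le, V, φ, hV, hφ, rfl⟩).trans e.le) hZ' hπ)))

end Pool.Agent.Results.MP_5351bf_an.Yes
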